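import Mathlib

/-!
# MP_44129c_co/F, module CubeDefs (definitions and basic facts, helper29)

`cube d I` is the set of subset sums of the family `(d i)_{i ∈ I}`; `Aper S` says that the finite
set `S` has trivial stabiliser.
-/

set_option autoImplicit false

namespace ZS44129

open Finset

variable {ι G : Type*} [AddCommGroup G] [DecidableEq G]

/-- the set of all subset sums of `(d i)_{i ∈ I}`. -/
def cube (d : ι → G) (I : Finset ι) : Finset G := I.powerset.image (fun T => ∑ i ∈ T, d i)

/-- trivial stabiliser (for a finite set `S + h ⊆ S` is the same as `S + h = S`). -/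
def Aper (S : Finset G) : Prop := ∀ h : G, (∀ x ∈ S, x + h ∈ S) → h = 0

theorem mem_cube {d : ι → G} {I : Finset ι} {x : G} :
    x ∈ cube d I ↔ ∃ T, T ⊆ I ∧ ∑ i ∈ T, d i = x := by
  simp [cube]

theorem zero_mem_cube (d : ι → G) (I : Finset ι) : (0 : G) ∈ cube d I :=
  mem_cube.2 ⟨∅, by simp, by simp⟩

theorem cube_nonempty (d : ι → G) (I : Finset ι) : (cube d I).Nonempty :=
  ⟨0, zero_mem_cube d I⟩

theorem cube_empty (d : ι → G) : cube d (∅ : Finset ι) = {0} := by
  simp [cube]

theorem cube_mono (d : ι → G) {I J : Finset ι} (h : I ⊆ J) : cube d I ⊆ cube d J := by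
  intro x hx
  obtain ⟨T, hT, rfl⟩ := mem_cube.1 hx
  exact mem_cube.2 ⟨T, hT.trans h, rfl⟩

theorem mem_cube_insert [DecidableEq ι] {d : ι → G} {I : Finset ι} {i : ι} (hi : i ∉ I) {x : G} :
    x ∈ cube d (insert i I) ↔ x ∈ cube d I ∨ x - d i ∈ cube d I := by
  constructor
  · intro hx
    obtain ⟨T, hT, rfl⟩ := mem_cube.1 hx
    by_cases h : i ∈ T
    · right
      refine mem_cube.2 ⟨T.erase i, ?_, ?_⟩
      · intro j hj
        have hj' := Finset.mem_of_mem_erase hj
        rcases Finset.mem_insert.1 (hT hj') with h1 | h1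
        · exact absurd h1 (Finset.ne_of_mem_erase hj)
        · exact h1
      · rw [← Finset.add_sum_erase T d h]; abel
    · left
      refine mem_cube.2 ⟨T, ?_, rfl⟩
      intro j hj
      rcases Finset.mem_insert.1 (hT hj) with h1 | h1
      · exact absurd (h1 ▸ hj) h
      · exact h1
  · rintro (hx | hx)
    · exact cube_mono d (Finset.subset_insert i I) hx
    · obtain ⟨T, hT, hs⟩ := mem_cube.1 hx
      refine mem_cube.2 ⟨insert i T, Finset.insert_subset_insert i hT, ?_⟩
      rw [Finset.sum_insert (fun h => hi (hT h)), hs]; abel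

theorem cube_insert [DecidableEq ι] {d : ι → G} {I : Finset ι} {i : ι} (hi : i ∉ I) :
    cube d (insert i I) = cube d I ∪ (cube d I).image (fun x => x + d i) := by
  ext x
  rw [mem_cube_insert hi, Finset.mem_union, Finset.mem_image]
  constructor
  · rintro (h | h)
    · exact Or.inl h
    · exact Or.inr ⟨x - d i, h, by abel⟩
  · rintro (h | ⟨y, hy, rfl⟩)
    · exact Or.inl h
    · exact Or.inr (by simpa using hy)

end ZS44129
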