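import Mathlib
import Pool.Agent.Work.MP_44129c_co.F.CubeDefs

/-!
# MP_44129c_co/F, module CubePf (helper29): proof of the cube inverse theorem
-/

set_option autoImplicit false

namespace ZS44129

open Finset

variable {ι G : Type*} [DecidableEq ι] [AddCommGroup G] [DecidableEq G]

/-- a larger aperiodic cube has aperiodic subcubes. -/
theorem aper_mono (d : ι → G) {I J : Finset ι} (h : I ⊆ J) (hap : Aper (cube d J)) :
    Aper (cube d I) := by
  intro e he
  apply hap
  intro x hx
  obtain ⟨T, hT, rfl⟩ := mem_cube.1 hx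
  have h1 : ∑ i ∈ T ∩ I, d i ∈ cube d I := mem_cube.2 ⟨_, Finset.inter_subset_right, rfl⟩
  obtain ⟨T', hT', hs⟩ := mem_cube.1 (he _ h1)
  refine mem_cube.2 ⟨T' ∪ (T \ I), ?_, ?_⟩
  · apply Finset.union_subset (hT'.trans h)
    exact Finset.sdiff_subset.trans hT
  · rw [Finset.sum_union, hs]
    · have h2 : ∑ i ∈ T, d i = ∑ i ∈ T ∩ I, d i + ∑ i ∈ T \ I, d i := by
        rw [← Finset.sum_inter_add_sum_sdiff T I]
      rw [h2]; abel
    · rw [Finset.disjoint_left]
      intro i hi hi'
      exact (Finset.mem_sdiff.1 hi').2 (hT' hi)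

theorem cube_grow (d : ι → G) {I : Finset ι} {i : ι} (hi : i ∉ I) (hd : d i ≠ 0)
    (hap : Aper (cube d (insert i I))) :
    (cube d I).card + 1 ≤ (cube d (insert i I)).card := by
  have hsub : cube d I ⊆ cube d (insert i I) := cube_mono d (Finset.subset_insert i I)
  by_contra hlt
  push Not at hlt
  have heq : cube d I = cube d (insert i I) := Finset.eq_of_subset_of_card_le hsub (by omega)
  apply hd
  apply hap
  intro x hx
  rw [← heq] at hx
  rw [mem_cube_insert hi]
  right
  simpa using hx

theorem cube_card_ge' (d : ι → G) (I : Finset ι) (hd : ∀ i ∈ I, d i ≠ 0)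
    (hap : Aper (cube d I)) : I.card + 1 ≤ (cube d I).card := by
  induction I using Finset.induction_on with
  | empty => simp [cube_empty]
  | insert i I hi ih =>
    have h1 := ih (fun j hj => hd j (Finset.mem_insert_of_mem hj))
      (aper_mono d (Finset.subset_insert i I) hap)
    have h2 := cube_grow d hi (hd i (Finset.mem_insert_self i I)) hap
    rw [Finset.card_insert_of_notMem hi]
    omega

/-- the end and the start of the unique partial coset. -/
theorem exists_start (S : Finset G) (a z : G) (hz : z ∈ S) (hz' : z + a ∉ S)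
    (hu : ∀ x ∈ S, x + a ∉ S → x = z) :
    ∃ t, t ∉ S ∧ t + a ∈ S ∧ ∀ x, x ∉ S → x + a ∈ S → x = t := by
  have h1 : (S.filter (fun x => ¬ x + a ∈ S)).card = 1 := by
    rw [Finset.card_eq_one]
    refine ⟨z, ?_⟩
    ext x
    simp only [Finset.mem_filter, Finset.mem_singleton]
    exact ⟨fun h => hu x h.1 h.2, fun h => h ▸ ⟨hz, hz'⟩⟩
  have h2 : (S.filter (fun x => x + a ∈ S)).card = (S.filter (fun y => y - a ∈ S)).card := by
    apply Finset.card_bij (fun x _ => x + a)
    · intro x hx
      simp only [Finset.mem_filter] at hx ⊢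
      exact ⟨hx.2, by simpa using hx.1⟩
    · intro x _ y _ h
      exact add_right_cancel h
    · intro y hy
      simp only [Finset.mem_filter] at hy
      exact ⟨y - a, by simp [hy.1, hy.2], by simp⟩
  have h3 := Finset.card_filter_add_card_filter_not (s := S) (fun x => x + a ∈ S)
  have h4 := Finset.card_filter_add_card_filter_not (s := S) (fun x => x - a ∈ S)
  have h5 : (S.filter (fun x => ¬ x - a ∈ S)).card = 1 := by omega
  obtain ⟨y, hy⟩ := Finset.card_eq_one.1 h5
  have hy1 : y ∈ S.filter (fun x => ¬ x - a ∈ S) := by rw [hy]; simp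
  rw [Finset.mem_filter] at hy1
  refine ⟨y - a, hy1.2, by simpa using hy1.1, ?_⟩
  intro x hx hxa
  have : x + a ∈ S.filter (fun x => ¬ x - a ∈ S) := by
    rw [Finset.mem_filter]; exact ⟨hxa, by simpa using hx⟩
  rw [hy, Finset.mem_singleton] at this
  rw [← this]; abel

/-- data of a direction `a` in which `S` grows by exactly one. -/
structure OneEnd (S : Finset G) (a z t : G) : Prop where
  zS : z ∈ S
  zE : z + a ∉ S
  zU : ∀ x ∈ S, x + a ∉ S → x = z
  zP : z - a ∈ S
  tS : t ∉ S
  tE : t + a ∈ S
  tU : ∀ x, x ∉ S → x + a ∈ S → x = t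

/-- the discrete derivative of the indicator function. -/
theorem oneEnd_deriv {S : Finset G} {a z t : G} (h : OneEnd S a z t) (x : G) :
    (if x + a ∈ S then (1 : ℤ) else 0) - (if x ∈ S then 1 else 0) =
      (if x = t then 1 else 0) - (if x = z then 1 else 0) := by
  have htz : t ≠ z := fun e => h.tS (e ▸ h.zS)
  by_cases h1 : x ∈ S
  · have hxt : x ≠ t := fun e => h.tS (e ▸ h1)
    by_cases h2 : x + a ∈ S
    · have hxz : x ≠ z := fun e => h.zE (e ▸ h2)
      simp [h1, h2, hxt, hxz]
    · have hxz : x = z := h.zU x h1 h2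
      subst hxz
      simp [h1, h2, hxt]
  · have hxz : x ≠ z := fun e => h1 (e ▸ h.zS)
    by_cases h2 : x + a ∈ S
    · have hxt : x = t := h.tU x h1 h2
      subst hxt
      simp [h1, h2, hxz]
    · have hxt : x ≠ t := fun e => h2 (e ▸ h.tE)
      simp [h1, h2, hxt, hxz]

/-- two directions with exactly one end: the gap is one point. -/
theorem oneEnd_pair {S : Finset G} {a b za ta zb tb : G} (ha : OneEnd S a za ta)
    (hb : OneEnd S b zb tb) (hab : a ≠ b) (hab' : a ≠ -b) :
    za + a = ta ∧ zb + b = tb ∧ ta = tb := by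
  have hta : ta ≠ za := fun e => ha.tS (e ▸ ha.zS)
  have htb : tb ≠ zb := fun e => hb.tS (e ▸ hb.zS)
  have ha0 : a ≠ 0 := by
    intro e; apply ha.zE; rw [e, add_zero]; exact ha.zS
  have hb0 : b ≠ 0 := by
    intro e; apply hb.zE; rw [e, add_zero]; exact hb.zS
  -- the identity of functions
  have key : ∀ x : G, (if x = ta - b then (1 : ℤ) else 0) + (if x = za then 1 else 0) +
      (if x = zb - a then 1 else 0) + (if x = tb then 1 else 0) =
      (if x = za - b then 1 else 0) + (if x = ta then 1 else 0) +
      (if x = tb - a then 1 else 0) + (if x = zb then 1 else 0) := by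
    intro x
    have e1 := oneEnd_deriv ha (x + b)
    have e2 := oneEnd_deriv ha x
    have e3 := oneEnd_deriv hb (x + a)
    have e4 := oneEnd_deriv hb x
    have c1 : x + b + a = x + a + b := by abel
    rw [c1] at e1
    simp only [← eq_sub_iff_add_eq] at e1 e3
    linarith
  -- positions
  have f1 : za = tb - a ∨ za = zb := by
    by_contra hcon
    push Not at hcon
    have := key za
    have g1 : za ≠ za - b := fun e => hb0 (sub_eq_self.1 e.symm)
    rw [if_neg g1, if_neg hta.symm, if_neg hcon.1, if_neg hcon.2] at this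
    simp only [if_true] at this
    split_ifs at this <;> omega
  have f2 : ta - b = tb - a ∨ ta - b = zb := by
    by_contra hcon
    push Not at hcon
    have := key (ta - b)
    have g1 : ta - b ≠ za - b := fun e => hta (by simpa using e)
    have g2 : ta - b ≠ ta := fun e => hb0 (by simpa using e)
    rw [if_neg g1, if_neg g2, if_neg hcon.1, if_neg hcon.2] at this
    simp only [if_true] at this
    split_ifs at this <;> omega
  have f3 : zb - a = za - b ∨ zb - a = ta := by
    by_contra hcon
    push Not at hcon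
    have := key (zb - a)
    have g1 : zb - a ≠ tb - a := fun e => htb (by simpa using e.symm)
    have g2 : zb - a ≠ zb := fun e => ha0 (by simpa using e)
    rw [if_neg g1, if_neg g2, if_neg hcon.1, if_neg hcon.2] at this
    simp only [if_true] at this
    split_ifs at this <;> omega
  have f4 : tb = za - b ∨ tb = ta := by
    by_contra hcon
    push Not at hcon
    have := key tb
    have g1 : tb ≠ tb - a := fun e => ha0 (sub_eq_self.1 e.symm)
    rw [if_neg g1, if_neg htb, if_neg hcon.1, if_neg hcon.2] at this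
    simp only [if_true] at this
    split_ifs at this <;> omega
  have k1 : za ≠ za - b := fun e => hb0 (sub_eq_self.1 e.symm)
  have k2 : tb ≠ tb - a := fun e => ha0 (sub_eq_self.1 e.symm)
  have g1 : (za = zb ∧ ta - b = tb - a) ∨ (za = tb - a ∧ ta - b = zb) := by
    have := key za
    rw [if_neg k1, if_neg hta.symm] at this
    rcases f1 with h1 | h1 <;> rcases f2 with h2 | h2
    · left
      refine ⟨?_, h2⟩
      by_contra hcon
      rw [if_neg hcon, if_pos h1, if_pos (h1.trans h2.symm)] at this
      simp only [if_true] at this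
      split_ifs at this <;> omega
    · exact Or.inr ⟨h1, h2⟩
    · exact Or.inl ⟨h1, h2⟩
    · right
      refine ⟨?_, h2⟩
      by_contra hcon
      rw [if_neg hcon, if_pos h1, if_pos (h1.trans h2.symm)] at this
      simp only [if_true] at this
      split_ifs at this <;> omega
  have g2 : (zb - a = za - b ∧ tb = ta) ∨ (zb - a = ta ∧ tb = za - b) := by
    have := key tb
    rw [if_neg k2, if_neg htb] at this
    rcases f3 with h1 | h1 <;> rcases f4 with h2 | h2
    · left
      refine ⟨h1, ?_⟩
      by_contra hcon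
      rw [if_neg hcon, if_pos h2, if_pos (h2.trans h1.symm)] at this
      simp only [if_true] at this
      split_ifs at this <;> omega
    · exact Or.inl ⟨h1, h2⟩
    · exact Or.inr ⟨h1, h2⟩
    · right
      refine ⟨h1, ?_⟩
      by_contra hcon
      rw [if_neg hcon, if_pos h2, if_pos (h2.trans h1.symm)] at this
      simp only [if_true] at this
      split_ifs at this <;> omega
  rcases g1 with ⟨h1, h2⟩ | ⟨h1, h2⟩ <;> rcases g2 with ⟨h3, h4⟩ | ⟨h3, h4⟩
  · exfalso
    apply hab
    rw [h1] at h3
    exact sub_right_injective h3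
  · exfalso
    apply ha.tS
    rw [← h3, ← h1]
    exact ha.zP
  · refine ⟨?_, ?_, h4.symm⟩
    · rw [h1, ← h4]; abel
    · rw [← h2, h4]; abel
  · exfalso
    apply hab'
    rw [h4] at h1
    have h5 : za = za - (a + b) := by
      have h6 : za - (a + b) = za - b - a := by abel
      rw [h6]; exact h1
    have h7 : a + b = 0 := sub_eq_self.1 h5.symm
    exact eq_neg_of_add_eq_zero_left h7

/-- the stabiliser of a finite set. -/
def stb (S : Finset G) : AddSubgroup G where
  carrier := {h | ∀ x ∈ S, x + h ∈ S}
  zero_mem' := fun x hx => by simpa using hx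
  add_mem' := fun {a b} ha hb x hx => by
    have := hb _ (ha x hx)
    rwa [add_assoc] at this
  neg_mem' := fun {a} ha x hx => by
    have hinj : Set.InjOn (fun y : G => y + a) (S : Set G) := fun y _ z _ h => add_right_cancel h
    have hsur := Finset.surj_on_of_inj_on_of_card_le (s := S) (t := S) (fun y _ => y + a)
      (fun y hy => ha y hy) (fun y z _ _ h => add_right_cancel h) le_rfl x hx
    obtain ⟨y, hy, rfl⟩ := hsur
    simpa using hy

theorem mem_stb {S : Finset G} {h : G} : h ∈ stb S ↔ ∀ x ∈ S, x + h ∈ S := Iff.rfl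

theorem cube_subset_closure (d : ι → G) (I : Finset ι) {x : G} (hx : x ∈ cube d I) :
    x ∈ AddSubgroup.closure (d '' (I : Set ι)) := by
  obtain ⟨T, hT, rfl⟩ := mem_cube.1 hx
  apply AddSubgroup.sum_mem
  intro i hi
  exact AddSubgroup.subset_closure ⟨i, hT hi, rfl⟩

/-- if all `S_{-i}` have one element less and two differences are different up to sign, then
`S` is its group minus one point. -/
theorem gap_card [Finite G] (d : ι → G) (I : Finset ι) (hd : ∀ i ∈ I, d i ≠ 0)
    (hap : Aper (cube d I))
    (h1 : ∀ i ∈ I, (cube d I).card ≤ (cube d (I.erase i)).card + 1)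
    (h2 : ∃ i ∈ I, ∃ j ∈ I, d i ≠ d j ∧ d i ≠ - d j) :
    Nat.card (AddSubgroup.closure (d '' (I : Set ι))) = (cube d I).card + 1 := by
  classical
  have hdat : ∀ i ∈ I, ∃ z t, OneEnd (cube d I) (d i) z t := by
    intro i hi
    have hins : insert i (I.erase i) = I := Finset.insert_erase hi
    have hg := cube_grow d (Finset.notMem_erase i I) (hd i hi) (by rw [hins]; exact hap)
    rw [hins] at hg
    have hsub : cube d (I.erase i) ⊆ cube d I := cube_mono d (Finset.erase_subset i I)
    have hc : (cube d I \ cube d (I.erase i)).card = 1 := by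
      rw [Finset.card_sdiff_of_subset hsub]
      have := h1 i hi
      omega
    obtain ⟨z, hz⟩ := Finset.card_eq_one.1 hc
    have hz1 : z ∈ cube d I \ cube d (I.erase i) := by rw [hz]; simp
    rw [Finset.mem_sdiff] at hz1
    have hins' : ∀ x, x ∈ cube d I ↔ x ∈ cube d (I.erase i) ∨ x - d i ∈ cube d (I.erase i) := by
      intro x
      have := mem_cube_insert (d := d) (Finset.notMem_erase i I) (x := x)
      rwa [hins] at this
    have hu : ∀ x ∈ cube d I, x + d i ∉ cube d I → x = z := by
      intro x hx hxd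
      have : x ∈ cube d I \ cube d (I.erase i) := by
        rw [Finset.mem_sdiff]
        refine ⟨hx, fun hx' => hxd ?_⟩
        rw [hins']
        right
        simpa using hx'
      rw [hz, Finset.mem_singleton] at this
      exact this
    have hzE : z + d i ∉ cube d I := by
      intro hcon
      apply hd i hi
      apply hap
      intro x hx
      by_contra hxd
      rw [hu x hx hxd] at hxd
      exact hxd hcon
    obtain ⟨t, ht1, ht2, ht3⟩ := exists_start (cube d I) (d i) z hz1.1 hzE hu
    refine ⟨z, t, hz1.1, hzE, hu, ?_, ht1, ht2, ht3⟩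
    rcases (hins' z).1 hz1.1 with h | h
    · exact absurd h hz1.2
    · exact hsub h
  choose! z t hzt using hdat
  obtain ⟨i, hi, j, hj, hij1, hij2⟩ := h2
  obtain ⟨p1, p2, p3⟩ := oneEnd_pair (hzt i hi) (hzt j hj) hij1 hij2
  have hall : ∀ k ∈ I, z k + d k = t i ∧ t k = t i := by
    intro k hk
    by_cases hk1 : d k = d i ∨ d k = - d i
    · have hk2 : d k ≠ d j ∧ d k ≠ - d j := by
        rcases hk1 with h | h
        · rw [h]; exact ⟨hij1, hij2⟩
        · rw [h]
          refine ⟨fun e => hij2 (by rw [← e, neg_neg]), fun e => hij1 (neg_injective e)⟩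
      obtain ⟨q1, q2, q3⟩ := oneEnd_pair (hzt k hk) (hzt j hj) hk2.1 hk2.2
      exact ⟨by rw [q1, q3, p3], by rw [q3, p3]⟩
    · push Not at hk1
      obtain ⟨q1, q2, q3⟩ := oneEnd_pair (hzt k hk) (hzt i hi) hk1.1 hk1.2
      exact ⟨by rw [q1, q3], q3⟩
  set w := t i with hw
  have hwS : w ∉ cube d I := (hzt i hi).tS
  set V : Finset G := insert w (cube d I) with hV
  have hstab : ∀ k ∈ I, d k ∈ stb V := by
    intro k hk x hx
    rw [hV, Finset.mem_insert] at hx ⊢
    rcases hx with rfl | hx
    · right
      have := (hzt k hk).tE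
      rwa [(hall k hk).2] at this
    · by_cases hxd : x + d k ∈ cube d I
      · exact Or.inr hxd
      · left
        rw [(hzt k hk).zU x hx hxd]
        exact (hall k hk).1
  have hJ : AddSubgroup.closure (d '' (I : Set ι)) ≤ stb V := by
    rw [AddSubgroup.closure_le]
    rintro _ ⟨k, hk, rfl⟩
    exact hstab k hk
  have hset : (AddSubgroup.closure (d '' (I : Set ι)) : Set G) = (V : Set G) := by
    ext x
    constructor
    · intro hx
      have := hJ hx 0 (by rw [hV]; exact Finset.mem_insert_of_mem (zero_mem_cube d I))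
      simpa using this
    · intro hx
      rcases Finset.mem_insert.1 (Finset.mem_coe.1 hx) with h | h
      · rw [h, ← (hall i hi).1]
        apply AddSubgroup.add_mem
        · exact cube_subset_closure d I (hzt i hi).zS
        · exact AddSubgroup.subset_closure ⟨i, hi, rfl⟩
      · exact cube_subset_closure d I h
  have hcard : Nat.card (AddSubgroup.closure (d '' (I : Set ι))) = V.card := by
    have h3 : Nat.card (AddSubgroup.closure (d '' (I : Set ι))) =
        Nat.card ((AddSubgroup.closure (d '' (I : Set ι)) : Set G)) := rfl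
    rw [h3, hset]
    simp
  rw [hcard, hV, Finset.card_insert_of_notMem hwS]

/-- the structure of the conclusion. -/
def Str (d : ι → G) (I : Finset ι) : Prop :=
  ∃ (g : G) (n : ι → ℤ), (∀ i ∈ I, d i = n i • g) ∧ ∑ i ∈ I, |n i| + 1 = ((cube d I).card : ℤ)

/-- the cube lies in the corresponding progression. -/
theorem cube_subset_prog (d : ι → G) (I : Finset ι) (g : G) (n : ι → ℤ)
    (h : ∀ i ∈ I, d i = n i • g) :
    cube d I ⊆ (Finset.Icc (-∑ i ∈ I, max (-n i) 0) (∑ i ∈ I, max (n i) 0)).image
      (fun k : ℤ => k • g) := by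
  intro x hx
  obtain ⟨T, hT, rfl⟩ := mem_cube.1 hx
  rw [Finset.mem_image]
  refine ⟨∑ i ∈ T, n i, ?_, ?_⟩
  · rw [Finset.mem_Icc]
    constructor
    · have h1 : ∑ i ∈ T, max (-n i) 0 ≤ ∑ i ∈ I, max (-n i) 0 :=
        Finset.sum_le_sum_of_subset_of_nonneg hT (fun i _ _ => le_max_right _ _)
      have h2 : - ∑ i ∈ T, max (-n i) 0 ≤ ∑ i ∈ T, n i := by
        rw [← Finset.sum_neg_distrib]
        apply Finset.sum_le_sum
        intro i _
        have := le_max_left (-n i) 0
        linarith
      linarith
    · have h1 : ∑ i ∈ T, max (n i) 0 ≤ ∑ i ∈ I, max (n i) 0 :=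
        Finset.sum_le_sum_of_subset_of_nonneg hT (fun i _ _ => le_max_right _ _)
      have h2 : ∑ i ∈ T, n i ≤ ∑ i ∈ T, max (n i) 0 :=
        Finset.sum_le_sum fun i _ => le_max_left _ _
      linarith
  · rw [Finset.sum_smul]
    exact Finset.sum_congr rfl fun i hi => (h i (hT hi)).symm

theorem sum_pos_neg (I : Finset ι) (n : ι → ℤ) :
    ∑ i ∈ I, max (n i) 0 + ∑ i ∈ I, max (-n i) 0 = ∑ i ∈ I, |n i| := by
  rw [← Finset.sum_add_distrib]
  refine Finset.sum_congr rfl fun i _ => ?_
  rcases le_total 0 (n i) with h | h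
  · rw [max_eq_left h, max_eq_right (by linarith), abs_of_nonneg h]; ring
  · rw [max_eq_right h, max_eq_left (by linarith), abs_of_nonpos h]; ring

end ZS44129
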