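import Mathlib
import Pool.Agent.Work.MP_44129c_co.F.CubePf

/-!
# MP_44129c_co/F, module CubePf2 (helper29): extension step and induction
-/

set_option autoImplicit false

namespace ZS44129

open Finset

variable {ι G : Type*} [DecidableEq ι] [AddCommGroup G] [DecidableEq G]

/-- disjoint translates double the cube. -/
theorem cube_double (d : ι → G) {I : Finset ι} {i : ι} (hi : i ∉ I)
    (h : ∀ x ∈ cube d I, x + d i ∉ cube d I) :
    (cube d (insert i I)).card = 2 * (cube d I).card := by
  rw [cube_insert hi, Finset.card_union_of_disjoint, Finset.card_image_of_injective]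
  · ring
  · exact fun x y hxy => add_right_cancel hxy
  · rw [Finset.disjoint_left]
    intro x hx hx'
    obtain ⟨y, hy, rfl⟩ := Finset.mem_image.1 hx'
    exact h y hy hx

/-- extension of the structure by one more difference. -/
theorem str_ext (d : ι → G) {I : Finset ι} {i : ι} (hi : i ∉ I) (hdi : d i ≠ 0)
    (hs : Str d I) (hap : Aper (cube d (insert i I))) :
    (cube d (insert i I)).card = 2 * (cube d I).card ∨ Str d (insert i I) := by
  classical
  obtain ⟨g, n, hn, hc⟩ := hs
  set p := ∑ j ∈ I, max (n j) 0 with hp
  set q := ∑ j ∈ I, max (-n j) 0 with hq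
  have hpq : p + q = ∑ j ∈ I, |n j| := sum_pos_neg I n
  have hp0 : 0 ≤ p := Finset.sum_nonneg fun j _ => le_max_right _ _
  have hq0 : 0 ≤ q := Finset.sum_nonneg fun j _ => le_max_right _ _
  have hsub := cube_subset_prog d I g n hn
  rw [← hp, ← hq] at hsub
  have hcard1 : ((Finset.Icc (-q) p).card : ℤ) = p + q + 1 := by
    rw [Int.card_Icc]
    omega
  have heq : cube d I = (Finset.Icc (-q) p).image (fun k : ℤ => k • g) := by
    apply Finset.eq_of_subset_of_card_le hsub
    have h1 : ((Finset.Icc (-q) p).image (fun k : ℤ => k • g)).card ≤ (Finset.Icc (-q) p).card :=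
      Finset.card_image_le
    have h2 : ((cube d I).card : ℤ) = ((Finset.Icc (-q) p).card : ℤ) := by
      rw [hcard1, hpq, hc]
    omega
  have hmem : ∀ x, x ∈ cube d I ↔ ∃ k : ℤ, -q ≤ k ∧ k ≤ p ∧ k • g = x := by
    intro x
    rw [heq, Finset.mem_image]
    constructor
    · rintro ⟨k, hk, rfl⟩
      rw [Finset.mem_Icc] at hk
      exact ⟨k, hk.1, hk.2, rfl⟩
    · rintro ⟨k, h1, h2, rfl⟩
      exact ⟨k, Finset.mem_Icc.2 ⟨h1, h2⟩, rfl⟩
  by_cases hzm : ∃ k : ℤ, d i = k • g
  swap
  · left
    apply cube_double d hi
    intro x hx hx'
    obtain ⟨k, _, _, rfl⟩ := (hmem x).1 hx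
    obtain ⟨l, _, _, hl⟩ := (hmem _).1 hx'
    apply hzm
    refine ⟨l - k, ?_⟩
    rw [sub_smul, hl]; abel
  · -- minimal multiple
    have hex : ∃ a : ℕ, ∃ k : ℤ, d i = k • g ∧ k.natAbs = a := by
      obtain ⟨k, hk⟩ := hzm
      exact ⟨_, k, hk, rfl⟩
    obtain ⟨k, hk, hka⟩ := Nat.find_spec hex
    have hmin : ∀ l : ℤ, d i = l • g → |k| ≤ |l| := by
      intro l hl
      have h1 : Nat.find hex ≤ l.natAbs := Nat.find_min' hex ⟨l, hl, rfl⟩
      rw [← hka] at h1
      rw [Int.abs_eq_natAbs, Int.abs_eq_natAbs]
      exact_mod_cast h1
    by_cases hlarge : p + q < |k|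
    · left
      apply cube_double d hi
      intro x hx hx'
      obtain ⟨a, ha1, ha2, rfl⟩ := (hmem x).1 hx
      obtain ⟨b, hb1, hb2, hb⟩ := (hmem _).1 hx'
      have h1 : d i = (b - a) • g := by
        rw [sub_smul, hb]; abel
      have h2 := hmin _ h1
      have h3 : |b - a| ≤ p + q := by
        rw [abs_le]; constructor <;> linarith
      linarith
    · right
      push Not at hlarge
      -- the new cube is a longer progression
      have hmem' : ∀ x, x ∈ cube d (insert i I) ↔
          ∃ a : ℤ, -(q + max (-k) 0) ≤ a ∧ a ≤ p + max k 0 ∧ a • g = x := by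
        intro x
        rw [mem_cube_insert hi, hmem, hmem]
        constructor
        · rintro (⟨a, h1, h2, h3⟩ | ⟨a, h1, h2, h3⟩)
          · refine ⟨a, ?_, ?_, h3⟩
            · have := le_max_right (-k) 0; linarith
            · have := le_max_right k 0; linarith
          · refine ⟨a + k, ?_, ?_, ?_⟩
            · have := le_max_left (-k) 0; linarith
            · have := le_max_left k 0; linarith
            · rw [add_smul, h3, ← hk]; abel
        · rintro ⟨a, h1, h2, h3⟩
          rcases le_total 0 k with hk0 | hk0
          · rw [max_eq_right (by linarith)] at h1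
            rw [max_eq_left hk0] at h2
            rw [abs_of_nonneg hk0] at hlarge
            by_cases ha : a ≤ p
            · exact Or.inl ⟨a, by linarith, ha, h3⟩
            · right
              refine ⟨a - k, by linarith, by linarith, ?_⟩
              rw [sub_smul, h3, ← hk]
          · rw [max_eq_left (by linarith)] at h1
            rw [max_eq_right hk0] at h2
            rw [abs_of_nonpos hk0] at hlarge
            by_cases ha : -q ≤ a
            · exact Or.inl ⟨a, ha, by linarith, h3⟩
            · right
              refine ⟨a - k, by linarith, by linarith, ?_⟩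
              rw [sub_smul, h3, ← hk]
      have hkabs : max k 0 + max (-k) 0 = |k| := by
        rcases le_total 0 k with h | h
        · rw [max_eq_left h, max_eq_right (by linarith), abs_of_nonneg h]; ring
        · rw [max_eq_right h, max_eq_left (by linarith), abs_of_nonpos h]; ring
      set A := q + max (-k) 0 with hA
      set B := p + max k 0 with hB
      have hA0 : 0 ≤ A := by have := le_max_right (-k) 0; linarith
      have hB0 : 0 ≤ B := by have := le_max_right k 0; linarith
      -- injectivity
      have hinj : ∀ a b : ℤ, -A ≤ a → a < b → b ≤ B → a • g ≠ b • g := by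
        intro a b ha hab hb heq'
        have hr : (b - a) • g = 0 := by rw [sub_smul, heq', sub_self]
        have hrpos : 0 < b - a := by linarith
        have hg0 : g = 0 := by
          apply hap
          intro x hx
          obtain ⟨c, hc1, hc2, rfl⟩ := (hmem' x).1 hx
          rw [hmem']
          by_cases hcB : c + 1 ≤ B
          · exact ⟨c + 1, by linarith, hcB, by rw [add_smul, one_smul]⟩
          · refine ⟨c + 1 - (b - a), by linarith, by linarith, ?_⟩
            rw [sub_smul, hr, add_smul, one_smul, sub_zero]
        apply hdi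
        rw [hk, hg0, smul_zero]
      have hcard2 : ((cube d (insert i I)).card : ℤ) = A + B + 1 := by
        have h1 : cube d (insert i I) = (Finset.Icc (-A) B).image (fun a : ℤ => a • g) := by
          ext x
          rw [hmem', Finset.mem_image]
          constructor
          · rintro ⟨a, h1, h2, h3⟩
            exact ⟨a, Finset.mem_Icc.2 ⟨h1, h2⟩, h3⟩
          · rintro ⟨a, h1, h3⟩
            rw [Finset.mem_Icc] at h1
            exact ⟨a, h1.1, h1.2, h3⟩
        rw [h1, Finset.card_image_of_injOn, Int.card_Icc]
        · omega
        · intro a ha b hb hab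
          have ha' := Finset.mem_Icc.1 (Finset.mem_coe.1 ha)
          have hb' := Finset.mem_Icc.1 (Finset.mem_coe.1 hb)
          simp only at hab
          by_contra hne
          rcases lt_or_gt_of_ne hne with h | h
          · exact hinj a b ha'.1 h hb'.2 hab
          · exact hinj b a hb'.1 h ha'.2 hab.symm
      refine ⟨g, Function.update n i k, ?_, ?_⟩
      · intro j hj
        rcases Finset.mem_insert.1 hj with rfl | hj'
        · rw [Function.update_self]; exact hk
        · have hji : j ≠ i := fun e => hi (e ▸ hj')
          rw [Function.update_of_ne hji]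
          exact hn j hj'
      · rw [Finset.sum_insert hi, Function.update_self, hcard2]
        have h1 : ∑ j ∈ I, |Function.update n i k j| = ∑ j ∈ I, |n j| := by
          refine Finset.sum_congr rfl fun j hj => ?_
          have hji : j ≠ i := fun e => hi (e ▸ hj)
          rw [Function.update_of_ne hji]
        rw [h1, ← hpq]
        linarith

/-- the induction step. -/
theorem str_step [Finite G] (d : ι → G) {I : Finset ι} {i : ι} (hi : i ∉ I)
    (hd : ∀ j ∈ insert i I, d j ≠ 0) (hap : Aper (cube d (insert i I)))
    (hP : (cube d I).card + 2 ≤ Nat.card (AddSubgroup.closure (d '' (I : Set ι))) → Str d I)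
    (hc : (cube d (insert i I)).card + 1 ≤ 2 * (insert i I).card) : Str d (insert i I) := by
  have hdi : d i ≠ 0 := hd i (Finset.mem_insert_self i I)
  have hapI : Aper (cube d I) := aper_mono d (Finset.subset_insert i I) hap
  have hge : I.card + 1 ≤ (cube d I).card :=
    cube_card_ge' d I (fun j hj => hd j (Finset.mem_insert_of_mem hj)) hapI
  rw [Finset.card_insert_of_notMem hi] at hc
  have hgrow := cube_grow d hi hdi hap
  by_cases hJ : (cube d I).card + 2 ≤ Nat.card (AddSubgroup.closure (d '' (I : Set ι)))
  · rcases str_ext d hi hdi (hP hJ) hap with h | h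
    · omega
    · exact h
  · exfalso
    by_cases hdJ : d i ∈ AddSubgroup.closure (d '' (I : Set ι))
    · -- the cube is the whole group
      have hsub : ∀ x ∈ cube d (insert i I), x ∈ AddSubgroup.closure (d '' (I : Set ι)) := by
        intro x hx
        rcases (mem_cube_insert hi).1 hx with h | h
        · exact cube_subset_closure d I h
        · have := AddSubgroup.add_mem _ (cube_subset_closure d I h) hdJ
          simpa using this
      have hset : ((cube d (insert i I) : Finset G) : Set G) =
          (AddSubgroup.closure (d '' (I : Set ι)) : Set G) := by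
        apply Set.eq_of_subset_of_ncard_le
        · intro x hx; exact hsub x hx
        · rw [Set.ncard_coe_finset]
          have : ((AddSubgroup.closure (d '' (I : Set ι)) : AddSubgroup G) : Set G).ncard =
              Nat.card (AddSubgroup.closure (d '' (I : Set ι))) := rfl
          rw [this]
          omega
        · exact Set.toFinite _
      apply hdi
      apply hap
      intro x hx
      have h1 : x ∈ (AddSubgroup.closure (d '' (I : Set ι)) : Set G) := by
        rw [← hset]; exact hx
      have h2 : x + d i ∈ (AddSubgroup.closure (d '' (I : Set ι)) : Set G) :=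
        AddSubgroup.add_mem _ h1 hdJ
      rw [← hset] at h2
      exact h2
    · have hdbl := cube_double d hi (by
        intro x hx hx'
        apply hdJ
        have h1 := cube_subset_closure d I hx
        have h2 := cube_subset_closure d I hx'
        have := AddSubgroup.sub_mem _ h2 h1
        simpa using this)
      omega

/-- all differences equal up to sign. -/
theorem str_const (d : ι → G) (I : Finset ι) (hd : ∀ i ∈ I, d i ≠ 0) (hap : Aper (cube d I))
    {i : ι} (hi : i ∈ I) (h : ∀ j ∈ I, d j = d i ∨ d j = - d i) : Str d I := by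
  classical
  set n : ι → ℤ := fun j => if d j = d i then 1 else -1 with hn
  have hn1 : ∀ j ∈ I, d j = n j • d i := by
    intro j hj
    by_cases hji : d j = d i
    · simp [hn, hji]
    · rcases h j hj with h1 | h1
      · exact absurd h1 hji
      · simp only [hn, if_neg hji, neg_smul, one_smul]; exact h1
  have hn2 : ∀ j, |n j| = 1 := by
    intro j
    simp only [hn]
    split_ifs <;> simp
  have hsum : ∑ j ∈ I, |n j| = I.card := by
    rw [Finset.sum_congr rfl fun j _ => hn2 j]; simp
  have hge := cube_card_ge' d I hd hap
  have hsub := cube_subset_prog d I (d i) n hn1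
  have hle : ((cube d I).card : ℤ) ≤ ∑ j ∈ I, |n j| + 1 := by
    have h1 := (Finset.card_le_card hsub).trans Finset.card_image_le
    have h2 : ((Finset.Icc (-∑ i ∈ I, max (-n i) 0) (∑ i ∈ I, max (n i) 0)).card : ℤ) =
        ∑ j ∈ I, |n j| + 1 := by
      rw [Int.card_Icc, ← sum_pos_neg I n]
      have h3 : 0 ≤ ∑ i ∈ I, max (-n i) 0 := Finset.sum_nonneg fun j _ => le_max_right _ _
      have h4 : 0 ≤ ∑ i ∈ I, max (n i) 0 := Finset.sum_nonneg fun j _ => le_max_right _ _
      omega
    rw [← h2]; exact_mod_cast h1
  refine ⟨d i, n, hn1, ?_⟩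
  rw [hsum] at hle ⊢
  have : (I.card : ℤ) + 1 ≤ (cube d I).card := by exact_mod_cast hge
  omega

/-- statement `S(L)`. -/
theorem str_main [Finite G] (L : ℕ) : ∀ (d : ι → G) (I : Finset ι), I.card = L →
    (∀ i ∈ I, d i ≠ 0) → Aper (cube d I) → (cube d I).card + 1 ≤ 2 * I.card →
    (cube d I).card + 2 ≤ Nat.card (AddSubgroup.closure (d '' (I : Set ι))) → Str d I := by
  induction L with
  | zero =>
    intro d I hI _ _ hc _
    rw [hI] at hc
    omega
  | succ L ih =>
    intro d I hI hd hap hc hJ
    by_cases h1 : ∃ i ∈ I, (cube d (I.erase i)).card + 2 ≤ (cube d I).card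
    · obtain ⟨i, hi, hi2⟩ := h1
      have hins : insert i (I.erase i) = I := Finset.insert_erase hi
      have hce : (I.erase i).card = L := by rw [Finset.card_erase_of_mem hi, hI]; omega
      have := str_step d (Finset.notMem_erase i I) (by rw [hins]; exact hd)
        (by rw [hins]; exact hap)
        (fun hJ' => ih d (I.erase i) hce (fun j hj => hd j (Finset.mem_of_mem_erase hj))
          (aper_mono d (Finset.erase_subset i I) hap) (by rw [hce]; omega) hJ')
        (by rw [hins]; exact hc)
      rwa [hins] at this
    · push Not at h1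
      have hne : I.Nonempty := by rw [← Finset.card_pos, hI]; omega
      obtain ⟨i0, hi0⟩ := hne
      by_cases h2 : ∃ i ∈ I, ∃ j ∈ I, d i ≠ d j ∧ d i ≠ - d j
      · have := gap_card d I hd hap (fun i hi => by have := h1 i hi; omega) h2
        omega
      · push Not at h2
        apply str_const d I hd hap hi0
        intro j hj
        by_cases hji : d j = d i0
        · exact Or.inl hji
        · exact Or.inr (h2 j hj i0 hi0 hji)

/-- the cube inverse theorem. -/
theorem cube_inverse' [Finite G] (d : ι → G) (I : Finset ι) (hd : ∀ i ∈ I, d i ≠ 0)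
    (hap : Aper (cube d I)) (hc : (cube d I).card + 2 ≤ 2 * I.card) : Str d I := by
  have hpos : 1 ≤ (cube d I).card := Finset.card_pos.2 (cube_nonempty d I)
  have hne : I.Nonempty := by rw [← Finset.card_pos]; omega
  obtain ⟨i, hi⟩ := hne
  have hins : insert i (I.erase i) = I := Finset.insert_erase hi
  have hce : (I.erase i).card + 1 = I.card := Finset.card_erase_add_one hi
  have hgrow := cube_grow d (Finset.notMem_erase i I) (hd i hi) (by rw [hins]; exact hap)
  rw [hins] at hgrow
  have := str_step d (Finset.notMem_erase i I) (by rw [hins]; exact hd)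
    (by rw [hins]; exact hap)
    (fun hJ' => str_main _ d (I.erase i) rfl (fun j hj => hd j (Finset.mem_of_mem_erase hj))
      (aper_mono d (Finset.erase_subset i I) hap) (by omega) hJ')
    (by rw [hins]; omega)
  rwa [hins] at this

end ZS44129
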