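import Mathlib
import Pool.Agent.Work.MP_44129c_co.F.CubePf2

/-!
# MP_44129c_co/F, module CubeMain (helper29): the cube inverse theorem
-/

set_option autoImplicit false

namespace ZS44129

open Finset

variable {ι G : Type*} [DecidableEq ι] [AddCommGroup G] [Fintype G] [DecidableEq G]

omit [Fintype G] in
/-- size of an aperiodic cube. -/
theorem cube_card_ge (d : ι → G) (I : Finset ι) (hd : ∀ i ∈ I, d i ≠ 0) (hap : Aper (cube d I)) :
    I.card + 1 ≤ (cube d I).card := cube_card_ge' d I hd hap

/-- the cube inverse theorem: an aperiodic cube with at most `2L - 2` elements (`L = I.card`) is an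
arithmetic progression with difference `g`, and the `d i` are multiples `n i • g` with
`∑ |n i| = |cube| - 1`. -/
theorem cube_inverse (d : ι → G) (I : Finset ι) (hd : ∀ i ∈ I, d i ≠ 0) (hap : Aper (cube d I))
    (hc : (cube d I).card + 2 ≤ 2 * I.card) :
    ∃ (g : G) (n : ι → ℤ), (∀ i ∈ I, d i = n i • g) ∧
      ∑ i ∈ I, |n i| + 1 = ((cube d I).card : ℤ) := cube_inverse' d I hd hap hc

/-- the cube inverse theorem in `ZMod m`: the scale `g` is a unit. -/
theorem cube_zmod {m : ℕ} [NeZero m] (d : ι → ZMod m) (I : Finset ι) (hd : ∀ i ∈ I, d i ≠ 0)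
    (hap : Aper (cube d I)) (hL : m + 1 ≤ 2 * I.card) :
    ∃ (g : (ZMod m)ˣ) (n : ι → ℤ), (∀ i ∈ I, d i = n i • (g : ZMod m)) ∧
      ∑ i ∈ I, |n i| + 1 = ((cube d I).card : ℤ) ∧ (cube d I).card + 1 ≤ m := by
  have hne : I.Nonempty := by rw [← Finset.card_pos]; omega
  obtain ⟨i, hi⟩ := hne
  have hle : (cube d I).card ≤ m := by
    have := Finset.card_le_univ (cube d I)
    rwa [ZMod.card] at this
  have hlt : (cube d I).card + 1 ≤ m := by
    by_contra hcon
    have h1 : (cube d I).card = Fintype.card (ZMod m) := by rw [ZMod.card]; omega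
    have h2 : cube d I = Finset.univ := (Finset.card_eq_iff_eq_univ _).1 h1
    apply hd i hi
    apply hap
    intro x _
    rw [h2]; exact Finset.mem_univ _
  obtain ⟨g, n, hn, hc⟩ := cube_inverse d I hd hap (by omega)
  have hge := cube_card_ge d I hd hap
  -- `g` generates
  have hsub : ∀ x ∈ cube d I, x ∈ AddSubgroup.zmultiples g := by
    intro x hx
    obtain ⟨T, hT, rfl⟩ := mem_cube.1 hx
    apply AddSubgroup.sum_mem
    intro j hj
    rw [hn j (hT hj)]
    exact AddSubgroup.zsmul_mem _ (AddSubgroup.mem_zmultiples g) _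
  have hcard : (cube d I).card ≤ Nat.card (AddSubgroup.zmultiples g) := by
    have h1 : ((cube d I : Finset (ZMod m)) : Set (ZMod m)).ncard ≤
        ((AddSubgroup.zmultiples g : AddSubgroup (ZMod m)) : Set (ZMod m)).ncard := by
      apply Set.ncard_le_ncard _ (Set.toFinite _)
      intro x hx
      exact hsub x hx
    rw [Set.ncard_coe_finset] at h1
    exact h1
  have hmul := AddSubgroup.card_mul_index (AddSubgroup.zmultiples g)
  rw [Nat.card_eq_fintype_card (α := ZMod m), ZMod.card] at hmul
  have hidx : (AddSubgroup.zmultiples g).index = 1 := by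
    have hmpos : 0 < m := Nat.pos_of_ne_zero (NeZero.ne m)
    have h0 : (AddSubgroup.zmultiples g).index ≠ 0 := by
      intro h; rw [h] at hmul; omega
    by_contra h1
    have h2 : 2 ≤ (AddSubgroup.zmultiples g).index := by omega
    have h3 : Nat.card (AddSubgroup.zmultiples g) * 2 ≤ m := by
      calc _ ≤ Nat.card (AddSubgroup.zmultiples g) * (AddSubgroup.zmultiples g).index :=
            Nat.mul_le_mul_left _ h2
        _ = m := hmul
    omega
  have htop : AddSubgroup.zmultiples g = ⊤ := AddSubgroup.index_eq_one.1 hidx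
  have hone : (1 : ZMod m) ∈ AddSubgroup.zmultiples g := by rw [htop]; exact AddSubgroup.mem_top _
  obtain ⟨k, hk⟩ := AddSubgroup.mem_zmultiples_iff.1 hone
  have hu : g * (k : ZMod m) = 1 := by
    rw [mul_comm, ← zsmul_eq_mul]; exact hk
  refine ⟨⟨g, k, hu, by rw [mul_comm]; exact hu⟩, n, hn, hc, hlt⟩

open Classical in
/-- periodic cubes: the number of differences outside the stabiliser `H`. -/
theorem cube_periodic (d : ι → G) (I : Finset ι) (H : AddSubgroup G)
    (hH : ∀ h : G, h ∈ H ↔ ∀ x ∈ cube d I, x + h ∈ cube d I) :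
    ((I.filter (fun i => d i ∉ H)).card + 1) * Nat.card H ≤ (cube d I).card := by
  -- thickened subcubes
  let T : Finset ι → Finset G := fun K => Finset.univ.filter (fun x => ∃ y ∈ cube d K, x - y ∈ H)
  have hTmem : ∀ K x, x ∈ T K ↔ ∃ y ∈ cube d K, x - y ∈ H := by
    intro K x
    simp only [T, Finset.mem_filter, Finset.mem_univ, true_and]
  have hmono : ∀ K L : Finset ι, K ⊆ L → T K ⊆ T L := by
    intro K L hKL x hx
    rw [hTmem] at hx ⊢
    obtain ⟨y, hy, hxy⟩ := hx
    exact ⟨y, cube_mono d hKL hy, hxy⟩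
  have hper : ∀ K x h, x ∈ T K → h ∈ H → x + h ∈ T K := by
    intro K x h hx hh
    rw [hTmem] at hx ⊢
    obtain ⟨y, hy, hxy⟩ := hx
    refine ⟨y, hy, ?_⟩
    have : x + h - y = (x - y) + h := by abel
    rw [this]; exact H.add_mem hxy hh
  have hcos : ∀ (U : Finset G) (x : G), (∀ h ∈ H, x + h ∈ U) → Nat.card H ≤ U.card := by
    intro U x hU
    have h1 : (((fun h : G => x + h) '' (H : Set G))).ncard ≤ ((U : Finset G) : Set G).ncard := by
      apply Set.ncard_le_ncard _ (Set.toFinite _)
      rintro _ ⟨h, hh, rfl⟩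
      exact hU h hh
    rw [Set.ncard_coe_finset, Set.ncard_image_of_injective _ (add_right_injective x)] at h1
    exact h1
  have hstep : ∀ K : Finset ι, K ⊆ I.filter (fun i => d i ∉ H) →
      (K.card + 1) * Nat.card H ≤ (T K).card := by
    intro K
    induction K using Finset.induction_on with
    | empty =>
      intro _
      rw [Finset.card_empty, zero_add, one_mul]
      apply hcos _ 0
      intro h hh
      rw [hTmem]
      exact ⟨0, zero_mem_cube d ∅, by simpa using hh⟩
    | insert i K hi ih =>
      intro hK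
      have hKI : K ⊆ I := fun j hj =>
        (Finset.mem_filter.1 (hK (Finset.mem_insert_of_mem hj))).1
      have hiI := Finset.mem_filter.1 (hK (Finset.mem_insert_self i K))
      have ih' := ih (fun j hj => hK (Finset.mem_insert_of_mem hj))
      have hsub := hmono K (insert i K) (Finset.subset_insert i K)
      -- the difference is nonempty
      have hex : ∃ x, x ∈ T (insert i K) ∧ x ∉ T K := by
        by_contra hcon
        push Not at hcon
        apply hiI.2
        rw [hH]
        intro x hx
        obtain ⟨R, hR, rfl⟩ := mem_cube.1 hx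
        have h1 : ∑ j ∈ R ∩ K, d j ∈ cube d K := mem_cube.2 ⟨_, Finset.inter_subset_right, rfl⟩
        have h2 : ∑ j ∈ R ∩ K, d j + d i ∈ T (insert i K) := by
          rw [hTmem]
          refine ⟨∑ j ∈ R ∩ K, d j + d i, ?_, by simp [H.zero_mem]⟩
          rw [mem_cube_insert hi]
          right
          simpa using h1
        have h3 := hcon _ h2
        rw [hTmem] at h3
        obtain ⟨y, hy, hyH⟩ := h3
        obtain ⟨R', hR', rfl⟩ := mem_cube.1 hy
        have h4 : ∑ j ∈ R' ∪ (R \ K), d j ∈ cube d I := by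
          refine mem_cube.2 ⟨_, ?_, rfl⟩
          exact Finset.union_subset (hR'.trans hKI) (Finset.sdiff_subset.trans hR)
        have h5 := (hH _).1 hyH _ h4
        have h6 : ∑ j ∈ R' ∪ (R \ K), d j = ∑ j ∈ R', d j + ∑ j ∈ R \ K, d j := by
          rw [Finset.sum_union]
          rw [Finset.disjoint_left]
          intro j hj hj'
          exact (Finset.mem_sdiff.1 hj').2 (hR' hj)
        have h7 : ∑ j ∈ R, d j = ∑ j ∈ R ∩ K, d j + ∑ j ∈ R \ K, d j := by
          rw [← Finset.sum_inter_add_sum_sdiff R K]
        rw [h6] at h5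
        have h8 : ∑ j ∈ R', d j + ∑ j ∈ R \ K, d j +
            (∑ j ∈ R ∩ K, d j + d i - ∑ j ∈ R', d j) = ∑ j ∈ R, d j + d i := by
          rw [h7]; abel
        rw [h8] at h5
        exact h5
      obtain ⟨x, hx1, hx2⟩ := hex
      have hd2 : Nat.card H ≤ (T (insert i K) \ T K).card := by
        apply hcos _ x
        intro h hh
        rw [Finset.mem_sdiff]
        refine ⟨hper _ _ _ hx1 hh, fun hcon => hx2 ?_⟩
        have := hper _ _ _ hcon (H.neg_mem hh)
        simpa using this
      rw [Finset.card_sdiff_of_subset hsub] at hd2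
      have hle := Finset.card_le_card hsub
      rw [Finset.card_insert_of_notMem hi]
      have : (K.card + 1 + 1) * Nat.card H = (K.card + 1) * Nat.card H + Nat.card H := by ring
      omega
  refine (hstep _ (Finset.Subset.refl _)).trans (Finset.card_le_card ?_)
  intro x hx
  rw [hTmem] at hx
  obtain ⟨y, hy, hxy⟩ := hx
  have h1 := (hH _).1 hxy y (cube_mono d (Finset.filter_subset _ _) hy)
  simpa using h1

end ZS44129
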